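import Pool.Agent.Helper89.SV.Act

/-!
# Partial coset tables with letters and inverse letters

As in `Pool.Agent.Helper89.SV.Act`, but the letters are not involutions: `iv s` is the inverse letter of `s`. A point `i` of the table
stands for the element `pt act x₀ par lt i`. An edge `(i, s)` with time stamp `τ i s < B` says `act s (pt i) = pt (T i s)`.
-/

set_option autoImplicit false

namespace Pool.Agent.Helper96.SV

open Pool.Agent.Helper89.SV (run run_append allB allB_spec tr tr_nil tr_cons tr_sound pt pt_zero pt_pos cond_and)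

variable {α : Type*}

theorem run_inj (act : ℕ → α → α) (iv : ℕ → ℕ) (hact : ∀ s x, act (iv s) (act s x) = x) (w : List ℕ) {x y : α}
    (h : run act w x = run act w y) : x = y := by
  induction w generalizing x y with
  | nil => exact h
  | cons s w ih =>
    have h1 : act s x = act s y := ih h
    rw [← hact s x, h1, hact s y]

/-- a relator closes an edge -/
theorem close_rel (act : ℕ → α → α) (iv : ℕ → ℕ) (hact : ∀ s x, act (iv s) (act s x) = x) (v : ℕ → α) (p q : List ℕ)
    (s i j : ℕ) (h1 : ∀ x, run act (p ++ s :: q) x = x) (h2 : run act (q ++ p) (v j) = v i) : act s (v i) = v j := by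
  apply run_inj act iv hact q
  have h3 := h1 (run act q (v j))
  rw [run_append, run] at h3
  rw [run_append] at h2
  rw [h2] at h3
  exact h3

/-- a word which fixes the base point closes an edge -/
theorem close_base (act : ℕ → α → α) (iv : ℕ → ℕ) (hact : ∀ s x, act (iv s) (act s x) = x) (v : ℕ → α) (p q : List ℕ)
    (s i j : ℕ) (h1 : run act (p ++ s :: q) (v 0) = v 0) (h2 : run act q (v j) = v 0) (h3 : run act p (v 0) = v i) :
    act s (v i) = v j := by
  rw [run_append, run, h3] at h1
  exact run_inj act iv hact q (h1.trans h2.symm)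

/-- `(k, r)` closes the edge `(i, s)` with stamp `n`: for `k < nr` the word `W k` is a relator, else it fixes the base point;
`r` is the position of the edge in the word -/
noncomputable def close (T τ : ℕ → ℕ → ℕ) (W : ℕ → List ℕ) (nr n i s k r : ℕ) : Bool :=
  cond (Nat.blt k nr)
    (tr T τ n i ((W k).drop (r + 1) ++ (W k).take r) (T i s))
    (cond (tr T τ n 0 ((W k).drop (r + 1)) (T i s)) (tr T τ n i ((W k).take r) 0) false)

theorem close_sound (act : ℕ → α → α) (iv : ℕ → ℕ) (hact : ∀ s x, act (iv s) (act s x) = x) (T τ : ℕ → ℕ → ℕ) (N m : ℕ)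
    (v : ℕ → α) (hT : ∀ i < N, ∀ s < m, T i s < N) (n : ℕ)
    (hE : ∀ i < N, ∀ s < m, τ i s < n → act s (v i) = v (T i s)) (W : ℕ → List ℕ) (hW : ∀ k, ∀ s ∈ W k, s < m) (nr : ℕ)
    (hrel : ∀ k < nr, ∀ x, run act (W k) x = x) (hbase : ∀ k, nr ≤ k → run act (W k) (v 0) = v 0) (i s k r : ℕ) (hi : i < N)
    (hs : s < m) (h1 : Nat.beq ((W k).getD r m) s = true) (h : close T τ W nr n i s k r = true) :
    act s (v i) = v (T i s) := by
  unfold close at h
  have h2 := Nat.eq_of_beq_eq_true h1
  have hr : r < (W k).length := by
    by_contra hr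
    push Not at hr
    rw [List.getD_eq_default _ _ hr] at h2
    omega
  rw [List.getD_eq_getElem _ _ hr] at h2
  have h3 : W k = (W k).take r ++ s :: (W k).drop (r + 1) := by
    rw [← h2, List.cons_getElem_drop_succ, List.take_append_drop]
  have hp : ∀ t ∈ (W k).take r, t < m := fun t ht => hW k t (List.mem_of_mem_take ht)
  have hq : ∀ t ∈ (W k).drop (r + 1), t < m := fun t ht => hW k t (List.mem_of_mem_drop ht)
  have hTi := hT i hi s hs
  have hN : 0 < N := by omega
  cases hb : Nat.blt k nr with
  | true =>
    rw [hb] at h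
    simp only [cond_true] at h
    have hk : k < nr := by simpa [Nat.blt_eq] using hb
    have h4 := tr_sound act T τ N m v hT n i hE _ (by
      intro t ht
      rcases List.mem_append.1 ht with h5 | h5
      · exact hq t h5
      · exact hp t h5) (T i s) hTi h
    exact close_rel act iv hact v _ _ s i (T i s) (by rw [← h3]; exact hrel k hk) h4
  | false =>
    rw [hb] at h
    simp only [cond_false] at h
    have hk : nr ≤ k := by
      by_contra hk
      push Not at hk
      have : Nat.blt k nr = true := by simpa [Nat.blt_eq] using hk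
      rw [hb] at this
      simp at this
    cases hc : tr T τ n 0 ((W k).drop (r + 1)) (T i s) with
    | false => rw [hc] at h; simp at h
    | true =>
      rw [hc] at h
      simp only [cond_true] at h
      have h4 := tr_sound act T τ N m v hT n 0 hE _ hq (T i s) hTi hc
      have h5 := tr_sound act T τ N m v hT n i hE _ hp 0 hN h
      exact close_base act iv hact v _ _ s i (T i s) (by rw [← h3]; exact hbase k hk) h4 h5

/-- the check of one edge -/
noncomputable def edge (T τ : ℕ → ℕ → ℕ) (par lt iv : ℕ → ℕ) (W : ℕ → List ℕ) (nr m B : ℕ) (di dk dr : ℕ → ℕ) (i s : ℕ) : Bool :=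
  cond (Nat.blt (τ i s) B)
    (cond (Nat.beq (T (T i s) (iv s)) i)
      (cond (Nat.beq (τ i s) 0)
        (cond (cond (Nat.blt 0 (T i s)) (cond (Nat.beq (par (T i s)) i) (Nat.beq (lt (T i s)) s) false) false) true
          (cond (Nat.blt 0 i) (cond (Nat.beq (par i) (T i s)) (Nat.beq (lt i) (iv s)) false) false))
        (cond (cond (Nat.beq (di (τ i s)) i) (Nat.beq ((W (dk (τ i s))).getD (dr (τ i s)) m) s) false)
          (close T τ W nr (τ i s) i s (dk (τ i s)) (dr (τ i s)))
          (cond (cond (Nat.beq (di (τ i s)) (T i s)) (Nat.beq ((W (dk (τ i s))).getD (dr (τ i s)) m) (iv s)) false)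
            (Nat.beq (τ (T i s) (iv s)) (τ i s)) false)))
      false)
    true

theorem edge_sound (act : ℕ → α → α) (iv : ℕ → ℕ) (hact : ∀ s x, act (iv s) (act s x) = x) (m : ℕ)
    (hiv : ∀ s < m, iv (iv s) = s) (hivm : ∀ s < m, iv s < m) (a : α)
    (T τ : ℕ → ℕ → ℕ) (par lt : ℕ → ℕ) (N B : ℕ) (W : ℕ → List ℕ) (nr : ℕ) (di dk dr : ℕ → ℕ)
    (hT : ∀ i < N, ∀ s < m, T i s < N) (hpar : ∀ j < N, 0 < j → par j < j) (hW : ∀ k, ∀ s ∈ W k, s < m)
    (hrel : ∀ k < nr, ∀ x, run act (W k) x = x) (hbase : ∀ k, nr ≤ k → run act (W k) a = a)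
    (h : ∀ i < N, ∀ s < m, edge T τ par lt iv W nr m B di dk dr i s = true) :
    ∀ n < B, ∀ i < N, ∀ s < m, τ i s = n → act s (pt act a par lt i) = pt act a par lt (T i s) := by
  intro n
  induction n using Nat.strong_induction_on with
  | _ n ih =>
    intro hB
    have hE : ∀ i < N, ∀ s < m, τ i s < n → act s (pt act a par lt i) = pt act a par lt (T i s) :=
      fun i hi s hs hlt => ih (τ i s) hlt (by omega) i hi s hs rfl
    have hblt : ∀ i s, τ i s = n → Nat.blt (τ i s) B = true := by
      intro i s hn
      rw [hn]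
      simpa [Nat.blt_eq] using hB
    have key : ∀ i < N, ∀ s < m, τ i s = n → 0 < n → di n = i → (W (dk n)).getD (dr n) m = s →
        act s (pt act a par lt i) = pt act a par lt (T i s) := by
      intro i hi s hs hn hpos hdi hds
      have h0 := h i hi s hs
      unfold edge at h0
      rw [hblt i s hn] at h0
      simp only [cond_true] at h0
      obtain ⟨-, h2⟩ := cond_and h0
      have h3 : Nat.beq (τ i s) 0 = false := by
        cases hb : Nat.beq (τ i s) 0 with
        | false => rfl
        | true =>
          have := Nat.eq_of_beq_eq_true hb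
          omega
      have h4 : Nat.beq (di (τ i s)) i = true := by
        rw [hn, hdi]
        exact Nat.beq_refl i
      have h5 : Nat.beq ((W (dk (τ i s))).getD (dr (τ i s)) m) s = true := by
        rw [hn, hds]
        exact Nat.beq_refl s
      rw [h3] at h2
      simp only [cond_false] at h2
      rw [h4] at h2
      simp only [cond_true] at h2
      rw [h5] at h2
      simp only [cond_true] at h2
      rw [hn] at h2 h5
      exact close_sound act iv hact T τ N m _ hT n hE W hW nr hrel (by
        intro k hk
        rw [pt_zero]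
        exact hbase k hk) i s _ _ hi hs h5 h2
    intro i hi s hs hn
    have h0 := h i hi s hs
    unfold edge at h0
    rw [hblt i s hn] at h0
    simp only [cond_true] at h0
    obtain ⟨h1, h2⟩ := cond_and h0
    have h1' := Nat.eq_of_beq_eq_true h1
    cases hb : Nat.beq (τ i s) 0 with
    | true =>
      rw [hb] at h2
      simp only [cond_true] at h2
      cases hc : cond (Nat.blt 0 (T i s)) (cond (Nat.beq (par (T i s)) i) (Nat.beq (lt (T i s)) s) false) false with
      | true =>
        obtain ⟨h3, h4⟩ := cond_and hc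
        obtain ⟨h4, h5⟩ := cond_and h4
        have h3' : 0 < T i s := by simpa [Nat.blt_eq] using h3
        have h4' := Nat.eq_of_beq_eq_true h4
        have h5' := Nat.eq_of_beq_eq_true h5
        rw [pt_pos act a par lt (hpar (T i s) (hT i hi s hs) h3'), h4', h5']
      | false =>
        rw [hc] at h2
        simp only [cond_false] at h2
        obtain ⟨h3, h4⟩ := cond_and h2
        obtain ⟨h4, h5⟩ := cond_and h4
        have h3' : 0 < i := by simpa [Nat.blt_eq] using h3
        have h4' := Nat.eq_of_beq_eq_true h4
        have h5' := Nat.eq_of_beq_eq_true h5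
        have h6 := pt_pos act a par lt (hpar i hi h3')
        rw [h4', h5'] at h6
        have h7 := hact (iv s) (pt act a par lt (T i s))
        rw [hiv s hs] at h7
        rw [h6]
        exact h7
    | false =>
      have hpos : 0 < n := by
        rcases Nat.eq_zero_or_pos n with h0 | h0
        · rw [hn, h0] at hb
          simp at hb
        · exact h0
      rw [hb] at h2
      simp only [cond_false] at h2
      cases hd : cond (Nat.beq (di (τ i s)) i) (Nat.beq ((W (dk (τ i s))).getD (dr (τ i s)) m) s) false with
      | true =>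
        obtain ⟨h3, h4⟩ := cond_and hd
        have h3' := Nat.eq_of_beq_eq_true h3
        have h4' := Nat.eq_of_beq_eq_true h4
        rw [hn] at h3' h4'
        exact key i hi s hs hn hpos h3' h4'
      | false =>
        rw [hd] at h2
        simp only [cond_false] at h2
        obtain ⟨h3, h4⟩ := cond_and h2
        obtain ⟨h3, h5⟩ := cond_and h3
        have h3' := Nat.eq_of_beq_eq_true h3
        have h4' := Nat.eq_of_beq_eq_true h4
        have h5' := Nat.eq_of_beq_eq_true h5
        rw [hn] at h3' h4' h5'
        have h6 := key (T i s) (hT i hi s hs) (iv s) (hivm s hs) h4' hpos h3' h5'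
        rw [h1'] at h6
        have h7 := hact (iv s) (pt act a par lt (T i s))
        rw [hiv s hs, h6] at h7
        exact h7

/-- a word whose trace from the base point along known edges returns to the base point fixes the base point -/
theorem target_sound (act : ℕ → α → α) (iv : ℕ → ℕ) (hact : ∀ s x, act (iv s) (act s x) = x) (m : ℕ)
    (hiv : ∀ s < m, iv (iv s) = s) (hivm : ∀ s < m, iv s < m) (a : α)
    (T τ : ℕ → ℕ → ℕ) (par lt : ℕ → ℕ) (N B : ℕ) (W : ℕ → List ℕ) (nr : ℕ) (di dk dr : ℕ → ℕ)
    (hT : ∀ i < N, ∀ s < m, T i s < N) (hpar : ∀ j < N, 0 < j → par j < j) (hW : ∀ k, ∀ s ∈ W k, s < m)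
    (hrel : ∀ k < nr, ∀ x, run act (W k) x = x) (hbase : ∀ k, nr ≤ k → run act (W k) a = a)
    (h : ∀ i < N, ∀ s < m, edge T τ par lt iv W nr m B di dk dr i s = true) (hN : 0 < N)
    (w : List ℕ) (hw : ∀ s ∈ w, s < m) (ht : tr T τ B 0 w 0 = true) : run act w a = a := by
  have h1 := edge_sound act iv hact m hiv hivm a T τ par lt N B W nr di dk dr hT hpar hW hrel hbase h
  have h2 := tr_sound act T τ N m (pt act a par lt) hT B 0 (fun i hi s hs hlt => h1 _ hlt i hi s hs rfl) w hw 0 hN ht
  rw [pt_zero] at h2
  exact h2

end Pool.Agent.Helper96.SV
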