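import Pool.Agent.Helper96.SV.S3b
import Pool.Agent.Helper94.SV.JPrime

/-!
# The hypothesis `HS3b` of the frame
-/

set_option autoImplicit false

namespace Pool.Agent.Helper96.SV

universe u

/-- in a closed `DLaw` set with `(x y z)⁴ = 1` all commutators are thin -/
theorem hs3b : Pool.Agent.Helper94.SV.JPrime.HS3b.{u} :=
  fun _ _ _ hD hP hc _ ha _ hb => thin_c2 hD hP hc ha hb

end Pool.Agent.Helper96.SV
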