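import Pool.Agent.Helper96.SV.Rel

/-!
# The certificate of L1
-/

set_option autoImplicit false

namespace Pool.Agent.Helper96.SV.L1Data

open Pool.Agent.Helper96.SV

open Pool.Agent.Helper89.SV (allB allB_spec tr)

/-- the table: entry `4 i + s` (16 bits) is the end point and the time stamp of the edge `(i, s)` -/
def tab : ℕ := 0xff00ff000067216aff00ff000066296d006cff00ff00296e006dff000065ff002569ff00ff000065ff000e5f005e216f256bff00005dff00ff00ff00005c2862ff00005a006f195e23620058006eff00ff000055006c006bff00ff0000540a55ff000d570052ff002366ff0000502868ff000c4f0051ff00ff00ff000053225aff000e6a004eff00ff00004d006a1967ff00ff00006900490049ff0000682450ff0014590048ff0000480067ff002260ff00145b20560047ff00006609460045ff000d6300441d4fff00ff0020590043ff00006500420a641c44ff0000640042ff0000400060ff002752003f00632a52ff00003d00612b51ff00003c0062245cff000c61003a1d57ff000039005f1a4cff00005e0038ff00ff00003eff001a4eff00ff00003e1f400036183bff00ff00005c0035ff00005d005aff00005b0037f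f0000330b430059163aff000958002fff00ff00002f00581c5400310057173a2643002e0b4700560030ff0000550054ff00ff00002d082eff000053002c1f4bff0000520032ff00002b004c004b1b2cff0000510029ff0000280050ff00ff00ff00184aff0000281646002a004f1744ff00004e0027ff00ff000027004dff00ff000025ff000048004aff00ff000024ff000049ff0000231522ff00ff000021ff0000470021ff00ff00001e003fff00ff000044001e1e2a0042ff00071f00200020ff0000450046ff000043001d0841ff0013260041001d001bff0000401b3e003eff00001c061bff00003a001a1e31ff00001a003d2c29003cff000019003bff00003800390018ff00132dff000017ff0000370017ff00ff000016ff0000360016ff00ff0000351534ff000015ff00ff00001400330034002fff0000130030ff00ff0007300013001100320031101aff000011002e002dff001215002b000e002cff00000e062b000d0029002a101eff00000d0028ff00000bff00ff000027ff00001200250026002300240012ff00ff00121c0022000aff00002105110010ff0000090020001fff0000170016000f001e001d0514000cff00ff00000c0014ff00000cff000012ff000008001b001c001a0019ff0000070006000f0010001100180006ff00110bff000005ff00001500050013ff000f09ff00000eff0000040003ff00ff00000d000c000bff0000030009000aff000002ff000002ff00000800070001ff00000600010004ff00000500020003000004010200030000010100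

/-- the tree: entry `i` (16 bits) is the parent of the point `i` and the letter -/
def prs : ℕ := 0x1670166036c01650065015e015d015c025a0258025501540152015001510153014e024d00490349014803480047004501440043014200420240023f023d023c013a02390138023e013e0336023500370233002f012f0231022e0330012d012c0132032b012903280028022a0127022702250024002300210121021e011e00200320011d001d031b011c011a021a011900180017011702160316011502140113001303110211000e010e030d020d030b02120112000a00100209000f000c010c020c020800070306020602050305000403030003000202020201030101000000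

/-- the deductions: point, word, position -/
def ded : ℕ := 0x1b12290308510e0a5205066d0100620a0952030a43060c6905075c05046608055a01006a0200590100400815310d1157080d440b143e080e4e09135e0a0f4a081044070b3a060c2204055b04022604021c03020b03031a03030903015f03015703014f04014701005502005801002e02003001001b020014010001001800001700001600000000

/-- the words -/
def wds : List (List ℕ) := [[1, 0, 1, 0],
  [1, 2, 1, 2, 1, 2, 1, 2],
  [2, 0, 2, 0, 2, 0, 2, 0],
  [3, 0, 3, 0, 3, 0, 3, 0],
  [1, 2, 3, 1, 2, 3, 1, 2, 3, 1, 2, 3],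
  [1, 2, 0, 1, 2, 0, 1, 2, 0, 1, 2, 0],
  [1, 3, 0, 1, 3, 0, 1, 3, 0, 1, 3, 0],
  [2, 3, 0, 2, 3, 0, 2, 3, 0, 2, 3, 0],
  [1, 2, 1, 0, 1, 2, 1, 0, 1, 2, 1, 0, 1, 2, 1, 0],
  [1, 2, 3, 2, 1, 2, 3, 2, 1, 2, 3, 2, 1, 2, 3, 2],
  [1, 2, 1, 3, 0, 1, 2, 1, 3, 0, 1, 2, 1, 3, 0, 1, 2, 1, 3, 0],
  [1, 2, 3, 0, 3, 1, 2, 3, 0, 3, 1, 2, 3, 0, 3, 1, 2, 3, 0, 3],
  [1, 3, 0, 2, 0, 1, 3, 0, 2, 0, 1, 3, 0, 2, 0, 1, 3, 0, 2, 0],
  [1, 2, 3, 0, 3, 0, 1, 2, 3, 0, 3, 0, 1, 2, 3, 0, 3, 0, 1, 2, 3, 0, 3, 0],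
  [1, 2, 0, 2, 3, 0, 1, 2, 0, 2, 3, 0, 1, 2, 0, 2, 3, 0, 1, 2, 0, 2, 3, 0],
  [1, 2, 0, 3, 2, 0, 1, 2, 0, 3, 2, 0, 1, 2, 0, 3, 2, 0, 1, 2, 0, 3, 2, 0],
  [1, 2, 0, 3, 0, 3, 1, 2, 0, 3, 0, 3, 1, 2, 0, 3, 0, 3, 1, 2, 0, 3, 0, 3],
  [1, 0, 1, 0, 3, 0, 1, 0, 1, 0, 3, 0, 1, 0, 1, 0, 3, 0, 1, 0, 1, 0, 3, 0],
  [1, 2, 1, 2, 1, 2, 0, 1, 2, 1, 2, 1, 2, 0, 1, 2, 1, 2, 1, 2, 0, 1, 2, 1, 2, 1, 2, 0],
  [1, 2, 0, 2, 3, 0, 2, 1, 2, 0, 2, 3, 0, 2, 1, 2, 0, 2, 3, 0, 2, 1, 2, 0, 2, 3, 0, 2],
  [1, 2, 0, 2, 0, 3, 0, 1, 2, 0, 2, 0, 3, 0, 1, 2, 0, 2, 0, 3, 0, 1, 2, 0, 2, 0, 3, 0],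
  [1, 0, 2, 3, 0, 3, 0, 1, 0, 2, 3, 0, 3, 0, 1, 0, 2, 3, 0, 3, 0, 1, 0, 2, 3, 0, 3, 0],
  [0],
  [3],
  [2]]

/-- the laws behind the words, with the conjugating words -/
def crt : List (Law × List ℕ × Bool) := [(.com, [], true),
  (.two (.l 2) (.l 1), [], true),
  (.two (.l 0) (.l 2), [], true),
  (.two (.l 0) (.l 3), [], true),
  (.three (.l 2) (.l 1) (.l 3), [3], true),
  (.three (.l 2) (.l 1) (.l 0), [0], true),
  (.three (.l 3) (.l 1) (.l 0), [0], true),
  (.three (.l 3) (.l 2) (.l 0), [0], true),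
  (.two (.j 1 (.l 2)) (.l 0), [], false),
  (.two (.j 2 (.l 1)) (.l 3), [2], false),
  (.three (.l 0) (.l 3) (.j 1 (.l 2)), [], true),
  (.three (.l 2) (.l 1) (.j 3 (.l 0)), [3, 0, 3], true),
  (.three (.l 3) (.l 1) (.j 0 (.l 2)), [0, 2, 0], true),
  (.three (.l 1) (.l 2) (.k (.l 3) (.l 0)), [], false),
  (.three (.j 0 (.l 1)) (.l 3) (.k (.l 2) (.l 0)), [0, 3, 2, 0, 2, 0], true),
  (.three (.j 0 (.l 1)) (.j 2 (.l 3)) (.k (.l 2) (.l 0)), [0, 2, 3, 0, 2, 0], true),
  (.three (.l 2) (.l 1) (.k (.l 3) (.l 0)), [3, 0, 3, 0], true),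
  (.two (.j 0 (.l 3)) (.j 1 (.l 0)), [], true),
  (.three (.l 0) (.l 1) (.j 2 (.j 1 (.l 2))), [0], false),
  (.three (.l 3) (.l 2) (.j 0 (.j 2 (.l 1))), [2, 0], true),
  (.three (.j 2 (.l 1)) (.l 0) (.j 2 (.j 0 (.l 3))), [2], false),
  (.three (.j 3 (.l 2)) (.l 0) (.j 3 (.j 0 (.l 1))), [0, 3, 0, 3, 2, 3], false)]

/-- the end point of an edge -/
def tT (i s : ℕ) : ℕ := (tab >>> (16 * (4 * i + s))) % 256

/-- the time stamp of an edge -/
def tS (i s : ℕ) : ℕ := (tab >>> (16 * (4 * i + s) + 8)) % 256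

/-- the parent of a point -/
def tP (i : ℕ) : ℕ := (prs >>> (16 * i)) % 256

/-- the letter from the parent -/
def tL (i : ℕ) : ℕ := (prs >>> (16 * i + 8)) % 256

/-- the point of a deduction -/
def dI (n : ℕ) : ℕ := (ded >>> (24 * n)) % 256

/-- the word of a deduction -/
def dK (n : ℕ) : ℕ := (ded >>> (24 * n + 8)) % 256

/-- the position of a deduction -/
def dR (n : ℕ) : ℕ := (ded >>> (24 * n + 16)) % 256

/-- the word number `k` -/
def Wk (k : ℕ) : List ℕ := wds.getD k []

/-- inverse letters -/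
def iv (s : ℕ) : ℕ := s

/-- letters in `E` -/
def le (s : ℕ) : Bool := Nat.blt s 4

theorem chk_crt : (List.range 22).all (fun k => chk iv le true false (Wk k) (crt.getD k (.g4, [], true)).1
    (crt.getD k (.g4, [], true)).2.1 (crt.getD k (.g4, [], true)).2.2) = true := by
  decide +kernel

theorem chk_edges : allB (fun i => allB (fun s => edge tT tS tP tL iv Wk 22 4 45 dI dK dR i s) 4) 112 = true := by
  decide +kernel

theorem chk_par : allB (fun i => cond (Nat.beq i 0) true (Nat.blt (tP i) i)) 112 = true := by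
  decide +kernel

theorem chk_lt : allB (fun i => allB (fun s => Nat.blt (tT i s) 112) 4) 112 = true := by
  decide +kernel

/-- the target -/
def tgt : List ℕ := [1, 0, 2, 3, 0, 3, 2, 0, 2, 3, 0, 3, 2, 1]

theorem chk_target : tr tT tS 45 0 tgt 0 = true := by
  decide +kernel

theorem tT_lt : ∀ i < 112, ∀ s < 4, tT i s < 112 := by
  intro i hi s hs
  have h := allB_spec (allB_spec chk_lt i hi) s hs
  simpa [Nat.blt_eq] using h

theorem tP_lt : ∀ j < 112, 0 < j → tP j < j := by
  intro j hj hpos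
  have h := allB_spec chk_par j hj
  have h0 : Nat.beq j 0 = false := by
    cases hb : Nat.beq j 0 with
    | false => rfl
    | true =>
      have := Nat.eq_of_beq_eq_true hb
      omega
  simp only [h0, cond_false] at h
  simpa [Nat.blt_eq] using h

theorem edge_all : ∀ i < 112, ∀ s < 4, edge tT tS tP tL iv Wk 22 4 45 dI dK dR i s = true :=
  fun i hi s hs => allB_spec (allB_spec chk_edges i hi) s hs

theorem wds_letters : ∀ w ∈ wds, ∀ s ∈ w, s < 4 := by
  decide +kernel

theorem Wk_letters (k : ℕ) : ∀ s ∈ Wk k, s < 4 := by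
  rcases lt_or_ge k wds.length with hk | hk
  · rw [Wk, List.getD_eq_getElem _ _ hk]
    exact wds_letters _ (List.getElem_mem hk)
  · rw [Wk, List.getD_eq_default _ _ hk]
    simp

theorem crt_all : ∀ k < 22, chk iv le true false (Wk k) (crt.getD k (.g4, [], true)).1 (crt.getD k (.g4, [], true)).2.1
    (crt.getD k (.g4, [], true)).2.2 = true := by
  intro k hk
  exact List.all_eq_true.1 chk_crt k (List.mem_range.2 hk)

universe u

/-- the certificate: the target takes the same value on `f'` and `f` -/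
theorem main {G : Type u} [Group G] {E E' : Set G} (f f' : ℕ → G) (H : World E f iv le true false)
    (H' : World E' f' iv le true false) (hb : ∀ k, 22 ≤ k → ev f (Wk k) = ev f' (Wk k)) : ev f tgt = ev f' tgt := by
  have hrel : ∀ k < 22, ∀ x, Pool.Agent.Helper89.SV.run (act2 f' f) (Wk k) x = x := by
    intro k hk x
    rw [run_act2, chk_sound H (crt_all k hk), chk_sound H' (crt_all k hk)]
    simp
  have hbase : ∀ k, 22 ≤ k → Pool.Agent.Helper89.SV.run (act2 f' f) (Wk k) 1 = 1 := by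
    intro k hk
    rw [run_act2, hb k hk]
    simp
  have h := target_sound (act2 f' f) iv (fun s x => act2_act2 H'.inv H.inv s x) 4 (by decide) (by decide) 1 tT tS tP tL
    112 45 Wk 22 dI dK dR tT_lt tP_lt Wk_letters hrel hbase edge_all (by norm_num) tgt (by decide) chk_target
  rw [run_act2, mul_one] at h
  exact (inv_mul_eq_one.1 h).symm

/-- the words for the subgroup -/
theorem base_words : ∀ k, 22 ≤ k → Wk k ∈ [[], [0], [3], [2]] := by
  intro k hk
  rcases lt_or_ge k 25 with h | h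
  · interval_cases k <;> decide
  · rw [Wk, List.getD_eq_default _ _ (by exact h)]
    simp

end Pool.Agent.Helper96.SV.L1Data
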