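import Pool.Agent.Helper96.SV.ActI
import Pool.Agent.Helper89.SV.S3a

/-!
# Relators from laws

`E` is a normal set of involutions with `(x y)⁴ = (x y z)⁴ = 1`, closed under commutators. `Tm` are terms for elements of `E`, `Law` the instances of
the laws; a word is a relator if it is freely conjugate to (the inverse of) an instance of a law: this is a Boolean check `chk`.
-/

set_option autoImplicit false

namespace Pool.Agent.Helper96.SV

open Pool.Agent.Helper94.SV.Frame (c2 DLaw)
open Pool.Agent.Helper89.SV (P3 run run_append)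

universe u

variable {G : Type u} [Group G]

/-- the value of a word -/
def ev (f : ℕ → G) : List ℕ → G
  | [] => 1
  | s :: w => f s * ev f w

theorem ev_append (f : ℕ → G) (v w : List ℕ) : ev f (v ++ w) = ev f v * ev f w := by
  induction v with
  | nil => simp [ev]
  | cons s v ih => simp [ev, ih, mul_assoc]

/-- the inverse word -/
def iw (iv : ℕ → ℕ) : List ℕ → List ℕ
  | [] => []
  | s :: w => iw iv w ++ [iv s]

theorem ev_iw {f : ℕ → G} {iv : ℕ → ℕ} (hf : ∀ s, f s * f (iv s) = 1) (w : List ℕ) : ev f (iw iv w) = (ev f w)⁻¹ := by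
  induction w with
  | nil => simp [iw, ev]
  | cons s w ih =>
    have h : f (iv s) = (f s)⁻¹ := (inv_eq_of_mul_eq_one_right (hf s)).symm
    simp [iw, ev_append, ih, ev, h]

/-- free reduction of a word, with a stack -/
def fr (iv : ℕ → ℕ) : List ℕ → List ℕ → List ℕ
  | [], st => st
  | s :: w, [] => fr iv w [s]
  | s :: w, t :: st => cond (Nat.beq s (iv t)) (fr iv w st) (fr iv w (s :: t :: st))

theorem ev_fr {f : ℕ → G} {iv : ℕ → ℕ} (hf : ∀ s, f s * f (iv s) = 1) (w : List ℕ) :
    ∀ st : List ℕ, ev f (fr iv w st).reverse = ev f st.reverse * ev f w := by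
  induction w with
  | nil => intro st; simp [fr, ev]
  | cons s w ih =>
    intro st
    cases st with
    | nil => simp [fr, ih, ev]
    | cons t st =>
      rw [fr]
      cases h : Nat.beq s (iv t) with
      | true =>
        have h1 : s = iv t := Nat.eq_of_beq_eq_true h
        simp only [cond_true, ih, List.reverse_cons, ev_append, ev, mul_one, mul_assoc]
        rw [← mul_assoc (f t), h1, hf, one_mul]
      | false =>
        simp only [cond_false, ih, List.reverse_cons, ev_append, ev, mul_one, mul_assoc]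

/-- terms for elements of `E` -/
inductive Tm
  | l (s : ℕ)
  | u
  | j (s : ℕ) (t : Tm)
  | k (t t' : Tm)

/-- the word of a term -/
def Tm.wd (iv : ℕ → ℕ) : Tm → List ℕ
  | .l s => [s]
  | .u => [2, 2]
  | .j s t => iv s :: (t.wd iv ++ [s])
  | .k t t' => t.wd iv ++ (t'.wd iv ++ (t.wd iv ++ t'.wd iv))

/-- the leaves are allowed -/
def Tm.ok (le : ℕ → Bool) (gg : Bool) : Tm → Bool
  | .l s => le s
  | .u => gg
  | .j _ t => t.ok le gg
  | .k t t' => t.ok le gg && t'.ok le gg

/-- the word `[X, X^s]`, as `X · X^s · X · X^s` -/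
def wX (iv : ℕ → ℕ) (X : List ℕ) (s : ℕ) : List ℕ :=
  X ++ (iv s :: (X ++ (s :: (X ++ (iv s :: (X ++ [s]))))))

/-- instances of laws -/
inductive Law
  | two (x y : Tm)
  | three (x y z : Tm)
  | com
  | g4
  | g (x : Tm)
  | la (x e : Tm) (s : ℕ)
  | lb (x e : Tm) (s : ℕ)
  | lc (x e : Tm) (s : ℕ)

/-- `w w w w` -/
def r4 (w : List ℕ) : List ℕ := w ++ (w ++ (w ++ w))

/-- `Y w Y w⁻¹` -/
def yw (iv : ℕ → ℕ) (Y w : List ℕ) : List ℕ := Y ++ (w ++ (Y ++ iw iv w))

/-- the word of a law -/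
def Law.wd (iv : ℕ → ℕ) : Law → List ℕ
  | .two x y => r4 (x.wd iv ++ y.wd iv)
  | .three x y z => r4 (x.wd iv ++ (y.wd iv ++ z.wd iv))
  | .com => [0, 1, 0, 1]
  | .g4 => [2, 2, 2, 2]
  | .g x => r4 (x.wd iv ++ [2])
  | .la x e s => yw iv (e.wd iv ++ (x.wd iv ++ e.wd iv)) (wX iv (x.wd iv) s)
  | .lb x e s => yw iv (x.wd iv ++ (e.wd iv ++ (x.wd iv ++ e.wd iv))) (wX iv (x.wd iv) s)
  | .lc x e s => yw iv (x.wd iv) (wX iv (x.wd iv ++ (e.wd iv ++ (x.wd iv ++ e.wd iv))) s)

/-- the law is allowed -/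
def Law.ok (le : ℕ → Bool) (cm gg : Bool) : Law → Bool
  | .two x y => x.ok le gg && y.ok le gg
  | .three x y z => x.ok le gg && (y.ok le gg && z.ok le gg)
  | .com => cm
  | .g4 => gg
  | .g x => gg && x.ok le gg
  | .la x e s => gg && (x.ok le gg && (e.ok le gg && (Nat.beq s 2 || Nat.beq s 3)))
  | .lb x e s => gg && (x.ok le gg && (e.ok le gg && (Nat.beq s 2 || Nat.beq s 3)))
  | .lc x e s => gg && (x.ok le gg && (e.ok le gg && (Nat.beq s 2 || Nat.beq s 3)))

/-- the letters satisfy the hypotheses of the world -/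
structure World (E : Set G) (f : ℕ → G) (iv : ℕ → ℕ) (le : ℕ → Bool) (cm gg : Bool) : Prop where
  law : DLaw E
  p3 : P3 E
  cl : ∀ a ∈ E, ∀ b ∈ E, c2 a b ∈ E
  inv : ∀ s, f s * f (iv s) = 1
  le : ∀ s, le s = true → f s ∈ E
  cm : cm = true → f 0 * (f 1 * (f 0 * f 1)) = 1
  uu : gg = true → f 2 * f 2 ∈ E
  g4 : gg = true → f 2 * (f 2 * (f 2 * f 2)) = 1
  gx : gg = true → ∀ x ∈ E, (x * f 2) ^ 4 = 1
  l1 : gg = true → ∀ x ∈ E, ∀ y ∈ E, x * y = y * x → ∀ s, (s = 2 ∨ s = 3) →
    Commute y (x * (f (iv s) * (x * (f s * (x * (f (iv s) * (x * f s)))))))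

variable {E : Set G} {f : ℕ → G} {iv : ℕ → ℕ} {le : ℕ → Bool} {cm gg : Bool}

theorem conj_inv_mem (hD : DLaw E) {x g h : G} (hx : x ∈ E) (hg : g * h = 1) : h * (x * g) ∈ E := by
  have h1 : h = g⁻¹ := (inv_eq_of_mul_eq_one_right hg).symm
  have h2 := hD.conj g⁻¹ x hx
  rwa [inv_inv, ← h1, mul_assoc] at h2

theorem Tm.mem (H : World E f iv le cm gg) (t : Tm) (h : t.ok le gg = true) : ev f (t.wd iv) ∈ E := by
  induction t with
  | l s => simpa [Tm.wd, ev] using H.le s h
  | u => simpa [Tm.wd, ev] using H.uu h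
  | j s t ih =>
    have h1 := conj_inv_mem H.law (ih h) (H.inv s)
    simpa [Tm.wd, ev, ev_append] using h1
  | k t t' ih ih' =>
    simp only [Tm.ok, Bool.and_eq_true] at h
    have h1 := H.cl _ (ih h.1) _ (ih' h.2)
    have h2 : c2 (ev f (t.wd iv)) (ev f (t'.wd iv)) = ev f ((Tm.k t t').wd iv) := by
      simp only [Tm.wd, ev_append]
      show _ * _ * (_ * _) = _
      simp only [mul_assoc]
    rwa [h2] at h1

theorem ev_r4 (f : ℕ → G) (w : List ℕ) : ev f (r4 w) = ev f w ^ 4 := by
  simp [r4, ev_append, pow_succ, mul_assoc]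

theorem two_four (hD : DLaw E) {x y : G} (hx : x ∈ E) (hy : y ∈ E) : (x * y) ^ 4 = 1 := by
  have h := hD.four x hx y hy
  have e : (x * y) ^ 4 = c2 x y * c2 x y := by
    show _ = x * y * (x * y) * (x * y * (x * y))
    simp only [pow_succ, pow_zero, one_mul, mul_assoc]
  rw [e, h]

theorem ev_yw (H : World E f iv le cm gg) (Y w : List ℕ) (hY : ev f Y * ev f Y = 1) (h : Commute (ev f Y) (ev f w)) :
    ev f (yw iv Y w) = 1 := by
  have h1 : ev f (yw iv Y w) = ev f Y * ev f w * (ev f Y * (ev f w)⁻¹) := by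
    simp only [yw, ev_append, ev_iw H.inv, mul_assoc]
  rw [h1, h.eq, mul_assoc, ← mul_assoc (ev f Y), hY, one_mul, mul_inv_cancel]

theorem ev_wX (f : ℕ → G) (iv : ℕ → ℕ) (X : List ℕ) (s : ℕ) : ev f (wX iv X s) =
    ev f X * (f (iv s) * (ev f X * (f s * (ev f X * (f (iv s) * (ev f X * f s)))))) := by
  simp only [wX, ev_append, ev, mul_one, mul_assoc]

theorem comm_of_two {x e : G} (hx : x * x = 1) (he : e * e = 1) (h : (x * e) ^ 4 = 1) :
    x * (e * (x * e)) = e * (x * e) * x := by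
  have h1 : x * (e * (x * e)) * (x * (e * (x * e))) = 1 := by
    rw [← h]
    simp only [pow_succ, pow_zero, one_mul, mul_assoc]
  have h2 : (x * (e * (x * e)))⁻¹ = e * (x * e) * x := by
    rw [inv_eq_iff_mul_eq_one]
    have a1 : x * (e * (x * e)) * (e * (x * e) * x) = x * (e * (x * (e * e) * (x * (e * x)))) := by
      simp only [mul_assoc]
    have a2 : x * (e * (x * (e * e) * (x * (e * x)))) = 1 := by
      rw [he, mul_one, ← mul_assoc x x, hx, one_mul, ← mul_assoc e e, he, one_mul, hx]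
    rw [a1, a2]
  rw [← h2]
  exact eq_inv_of_mul_eq_one_left h1

theorem Law.sound (H : World E f iv le cm gg) (L : Law) (h : L.ok le cm gg = true) : ev f (L.wd iv) = 1 := by
  have hsq : ∀ x ∈ E, x * x = 1 := H.law.inv
  cases L with
  | two x y =>
    simp only [Law.ok, Bool.and_eq_true] at h
    rw [Law.wd, ev_r4, ev_append]
    exact two_four H.law (x.mem H h.1) (y.mem H h.2)
  | three x y z =>
    simp only [Law.ok, Bool.and_eq_true] at h
    rw [Law.wd, ev_r4, ev_append, ev_append, ← mul_assoc]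
    exact H.p3 _ (x.mem H h.1) _ (y.mem H h.2.1) _ (z.mem H h.2.2)
  | com =>
    have := H.cm h
    simpa [Law.wd, ev] using this
  | g4 =>
    have := H.g4 h
    simpa [Law.wd, ev] using this
  | g x =>
    simp only [Law.ok, Bool.and_eq_true] at h
    have := H.gx h.1 _ (x.mem H h.2)
    rw [Law.wd, ev_r4, ev_append]
    simpa [ev] using this
  | la x e s =>
    simp only [Law.ok, Bool.and_eq_true, Bool.or_eq_true, Nat.beq_eq] at h
    obtain ⟨h0, h1, h2, h3⟩ := h
    have hx := x.mem H h1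
    have he := e.mem H h2
    have hc := comm_of_two (hsq _ hx) (hsq _ he) (two_four H.law hx he)
    have hY : ev f (e.wd iv) * (ev f (x.wd iv) * ev f (e.wd iv)) ∈ E := conj_inv_mem H.law hx (hsq _ he)
    rw [Law.wd]
    apply ev_yw H
    · simp only [ev_append]
      exact hsq _ hY
    · rw [ev_wX]
      simp only [ev_append]
      exact H.l1 h0 _ hx _ hY hc s h3
  | lb x e s =>
    simp only [Law.ok, Bool.and_eq_true, Bool.or_eq_true, Nat.beq_eq] at h
    obtain ⟨h0, h1, h2, h3⟩ := h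
    have hx := x.mem H h1
    have he := e.mem H h2
    have hc := comm_of_two (hsq _ hx) (hsq _ he) (two_four H.law hx he)
    have hY : ev f (x.wd iv) * (ev f (e.wd iv) * (ev f (x.wd iv) * ev f (e.wd iv))) ∈ E := by
      have := H.cl _ hx _ he
      have e2 : c2 (ev f (x.wd iv)) (ev f (e.wd iv)) =
          ev f (x.wd iv) * (ev f (e.wd iv) * (ev f (x.wd iv) * ev f (e.wd iv))) := by
        show _ * _ * (_ * _) = _
        simp only [mul_assoc]
      rwa [e2] at this
    rw [Law.wd]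
    apply ev_yw H
    · simp only [ev_append]
      exact hsq _ hY
    · rw [ev_wX]
      simp only [ev_append]
      refine H.l1 h0 _ hx _ hY ?_ s h3
      conv_rhs => rw [mul_assoc, ← hc]
  | lc x e s =>
    simp only [Law.ok, Bool.and_eq_true, Bool.or_eq_true, Nat.beq_eq] at h
    obtain ⟨h0, h1, h2, h3⟩ := h
    have hx := x.mem H h1
    have he := e.mem H h2
    have hc := comm_of_two (hsq _ hx) (hsq _ he) (two_four H.law hx he)
    have hY : ev f (x.wd iv) * (ev f (e.wd iv) * (ev f (x.wd iv) * ev f (e.wd iv))) ∈ E := by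
      have := H.cl _ hx _ he
      have e2 : c2 (ev f (x.wd iv)) (ev f (e.wd iv)) =
          ev f (x.wd iv) * (ev f (e.wd iv) * (ev f (x.wd iv) * ev f (e.wd iv))) := by
        show _ * _ * (_ * _) = _
        simp only [mul_assoc]
      rwa [e2] at this
    rw [Law.wd]
    apply ev_yw H
    · exact hsq _ hx
    · rw [ev_wX]
      simp only [ev_append]
      refine H.l1 h0 _ hY _ hx ?_ s h3
      conv_lhs => rw [mul_assoc, ← hc]

/-- the word `W` is freely conjugate by `p` to the instance `L` or its inverse -/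
def chk (iv : ℕ → ℕ) (le : ℕ → Bool) (cm gg : Bool) (W : List ℕ) (L : Law) (p : List ℕ) (o : Bool) : Bool :=
  L.ok le cm gg && (fr iv (iw iv p ++ (W ++ (p ++ cond o (L.wd iv) (iw iv (L.wd iv))))) []).isEmpty

theorem chk_sound (H : World E f iv le cm gg) {W : List ℕ} {L : Law} {p : List ℕ} {o : Bool}
    (h : chk iv le cm gg W L p o = true) : ev f W = 1 := by
  simp only [chk, Bool.and_eq_true, List.isEmpty_iff] at h
  have h1 := L.sound H h.1
  have h2 := ev_fr H.inv (iw iv p ++ (W ++ (p ++ cond o (L.wd iv) (iw iv (L.wd iv))))) []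
  rw [h.2] at h2
  have h3 : ev f (cond o (L.wd iv) (iw iv (L.wd iv))) = 1 := by
    cases o with
    | true => exact h1
    | false => rw [cond_false, ev_iw H.inv, h1, inv_one]
  simp only [List.reverse_nil, ev, one_mul, ev_append, h3, mul_one, ev_iw H.inv] at h2
  have h4 : ev f W = ev f p * ((ev f p)⁻¹ * (ev f W * ev f p)) * (ev f p)⁻¹ := by
    simp only [mul_assoc, mul_inv_cancel, mul_one, mul_inv_cancel_left]
  rw [h4, ← h2, mul_one, mul_inv_cancel]

/-- letters act on both sides -/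
def act2 (f' f : ℕ → G) (s : ℕ) (x : G) : G := (f' s)⁻¹ * x * f s

theorem run_act2 (f' f : ℕ → G) (w : List ℕ) (x : G) : run (act2 f' f) w x = (ev f' w)⁻¹ * x * ev f w := by
  induction w generalizing x with
  | nil => simp [run, ev]
  | cons s w ih => rw [run, ih]; simp [act2, ev, mul_assoc]

theorem act2_act2 {f' f : ℕ → G} {iv : ℕ → ℕ} (hf' : ∀ s, f' s * f' (iv s) = 1) (hf : ∀ s, f s * f (iv s) = 1) (s : ℕ)
    (x : G) : act2 f' f (iv s) (act2 f' f s x) = x := by
  have h : f (iv s) = (f s)⁻¹ := (inv_eq_of_mul_eq_one_right (hf s)).symm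
  have h' : f' (iv s) = (f' s)⁻¹ := (inv_eq_of_mul_eq_one_right (hf' s)).symm
  simp [act2, h, h', mul_assoc]

end Pool.Agent.Helper96.SV
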