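import Pool.Agent.Helper96.SV.L1Data
import Pool.Agent.Helper96.SV.R1Data
import Pool.Agent.Helper94.SV.Frame2

/-!
# Stage 3, part (b): commutators are thin

Let `E` be a normal set of involutions, closed under commutators, with `(x y)⁴ = (x y z)⁴ = 1` on `E`. Then `z = [a, b]` is thin:
`[z^c, z^d] = 1` for all `a, b, c, d ∈ E`.

* `l1`: if `z, a ∈ E` commute then `a` commutes with `[z, z^(dc)]` for `c, d ∈ E`.
* `r1`: `[K, K^g] = 1` for `K = [a, b]`, `g = d c`.
-/

set_option autoImplicit false

namespace Pool.Agent.Helper96.SV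

open Pool.Agent.Helper94.SV.Frame (c2 DLaw Thin)
open Pool.Agent.Helper89.SV (P3)

universe u

variable {G : Type u} [Group G]

/-- four letters -/
def f4 (a b c d : G) : ℕ → G
  | 0 => a
  | 1 => b
  | 2 => c
  | 3 => d
  | _ => 1

theorem ivA (s : ℕ) : L1Data.iv s = s := rfl

theorem worldA {E : Set G} (hD : DLaw E) (hP : P3 E) (hc : ∀ a ∈ E, ∀ b ∈ E, c2 a b ∈ E) {z a c d : G} (hz : z ∈ E)
    (ha : a ∈ E) (hcE : c ∈ E) (hd : d ∈ E) (hza : z * (a * (z * a)) = 1) :
    World E (f4 z a c d) L1Data.iv L1Data.le true false where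
  law := hD
  p3 := hP
  cl := hc
  inv := by
    intro s
    rw [ivA]
    match s with
    | 0 => exact hD.inv z hz
    | 1 => exact hD.inv a ha
    | 2 => exact hD.inv c hcE
    | 3 => exact hD.inv d hd
    | (n + 4) => exact one_mul 1
  le := by
    intro s _
    match s with
    | 0 => exact hz
    | 1 => exact ha
    | 2 => exact hcE
    | 3 => exact hd
    | (n + 4) => exact hD.one
  cm := fun _ => hza
  uu := fun h => by simp at h
  g4 := fun h => by simp at h
  gx := fun h => by simp at h
  l1 := fun h => by simp at h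

/-- if `z, a` commute then `a` commutes with `[z, z^(dc)]` -/
theorem l1 {E : Set G} (hD : DLaw E) (hP : P3 E) (hc : ∀ a ∈ E, ∀ b ∈ E, c2 a b ∈ E) {z a c d : G} (hz : z ∈ E)
    (ha : a ∈ E) (hcE : c ∈ E) (hd : d ∈ E) (hza : z * a = a * z) :
    Commute a (z * ((c * d) * (z * ((d * c) * (z * ((c * d) * (z * (d * c)))))))) := by
  have haa := hD.inv a ha
  have hzz := hD.inv z hz
  have h1 : z * (a * (z * a)) = 1 := by
    rw [hza, ← mul_assoc a a, haa, one_mul, hzz]
  have H := worldA hD hP hc hz ha hcE hd h1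
  have H' := worldA hD hP hc hz hD.one hcE hd (a := 1) (by simpa using hzz)
  have h := L1Data.main (f4 z a c d) (f4 z 1 c d) H H' (by
    intro k hk
    have := L1Data.base_words k hk
    simp only [List.mem_cons, List.not_mem_nil, or_false] at this
    rcases this with h | h | h | h <;> rw [h] <;> simp [ev, f4])
  simp only [L1Data.tgt, ev, f4, one_mul, mul_one] at h
  set W := z * ((c * d) * (z * ((d * c) * (z * ((c * d) * (z * (d * c))))))) with hW
  have h2 : a * (W * a) = W := by
    rw [hW]
    simpa only [mul_assoc] using h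
  show a * W = W * a
  calc a * W = a * (W * (a * a)) := by rw [haa, mul_one]
    _ = a * (W * a) * a := by simp only [mul_assoc]
    _ = W * a := by rw [h2]

theorem p4 {g : G} (h : g ^ 4 = 1) : g * (g * (g * g)) = 1 := by
  rw [← h]
  simp only [pow_succ, pow_zero, one_mul, mul_assoc]

theorem worldB {E : Set G} (hD : DLaw E) (hP : P3 E) (hc : ∀ a ∈ E, ∀ b ∈ E, c2 a b ∈ E) {a b c d : G} (ha : a ∈ E)
    (hb : b ∈ E) (hcE : c ∈ E) (hd : d ∈ E) :
    World E (f4 a b (d * c) (c * d)) R1Data.iv R1Data.le false true where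
  law := hD
  p3 := hP
  cl := hc
  inv := by
    have hcc := hD.inv c hcE
    have hdd := hD.inv d hd
    intro s
    match s with
    | 0 => exact hD.inv a ha
    | 1 => exact hD.inv b hb
    | 2 =>
      show d * c * (c * d) = 1
      rw [mul_assoc, ← mul_assoc c c, hcc, one_mul, hdd]
    | 3 =>
      show c * d * (d * c) = 1
      rw [mul_assoc, ← mul_assoc d d, hdd, one_mul, hcc]
    | (n + 4) => exact one_mul 1
  le := by
    intro s hs
    match s with
    | 0 => exact ha
    | 1 => exact hb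
    | (n + 2) =>
      simp [R1Data.le] at hs
  cm := fun h => by simp at h
  uu := fun _ => hc d hd c hcE
  g4 := fun _ => p4 (two_four hD hd hcE)
  gx := by
    intro _ x hx
    have := hP x hx d hd c hcE
    rwa [mul_assoc] at this
  l1 := by
    intro _ x hx y hy hxy s hs
    rcases hs with rfl | rfl
    · exact l1 hD hP hc hx hy hcE hd hxy
    · exact l1 hD hP hc hx hy hd hcE hxy

/-- `[K, K^g] = 1` for `K = [a, b]`, `g = d c` -/
theorem r1 {E : Set G} (hD : DLaw E) (hP : P3 E) (hc : ∀ a ∈ E, ∀ b ∈ E, c2 a b ∈ E) {a b c d : G} (ha : a ∈ E)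
    (hb : b ∈ E) (hcE : c ∈ E) (hd : d ∈ E) :
    c2 a b * ((c * d) * (c2 a b * ((d * c) * (c2 a b * ((c * d) * (c2 a b * (d * c))))))) = 1 := by
  have hbb := hD.inv b hb
  have hcc := hD.inv c hcE
  have hdd := hD.inv d hd
  have H := worldB hD hP hc ha hb hcE hd
  have H' := worldB hD hP hc hD.one hb hcE hd (a := 1)
  have h := R1Data.main (f4 a b (d * c) (c * d)) (f4 1 b (d * c) (c * d)) H H' (by
    intro k hk
    have := R1Data.base_words k hk
    simp only [List.mem_cons, List.not_mem_nil, or_false] at this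
    rcases this with h | h | h <;> rw [h] <;> simp [ev, f4])
  have e1 : ∀ x y : G, x * (y * (x * (y * 1))) = c2 x y * 1 := by
    intro x y
    show _ = x * y * (x * y) * 1
    simp only [mul_assoc]
  have e2 : ev (f4 a b (d * c) (c * d)) R1Data.tgt =
      c2 a b * ((c * d) * (c2 a b * ((d * c) * (c2 a b * ((c * d) * (c2 a b * (d * c))))))) := by
    have e3 : c2 a b = a * b * (a * b) := rfl
    rw [e3]
    simp only [R1Data.tgt, ev, f4, mul_one, mul_assoc]
  have e4 : ev (f4 1 b (d * c) (c * d)) R1Data.tgt = 1 := by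
    have hbc : ∀ x, b * (b * x) = x := fun x => by rw [← mul_assoc, hbb, one_mul]
    have hccx : ∀ x, c * (c * x) = x := fun x => by rw [← mul_assoc, hcc, one_mul]
    have hddx : ∀ x, d * (d * x) = x := fun x => by rw [← mul_assoc, hdd, one_mul]
    simp only [R1Data.tgt, ev, f4, mul_one, one_mul, mul_assoc, hbc, hccx, hddx, hcc, hdd, hbb]
  rw [e2, e4] at h
  exact h

/-- Stage 3 (b): commutators are thin -/
theorem thin_c2 {E : Set G} (hD : DLaw E) (hP : P3 E) (hc : ∀ a ∈ E, ∀ b ∈ E, c2 a b ∈ E) {a b : G} (ha : a ∈ E)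
    (hb : b ∈ E) : Thin E (c2 a b) := by
  intro c hcE d hd
  have hcc := hD.inv c hcE
  have hdd := hD.inv d hd
  have hz := hD.inv _ (hc a ha b hb)
  have h := r1 hD hP hc ha hb hcE hd
  set z := c2 a b with hzdef
  have hccx : ∀ x, c * (c * x) = x := fun x => by rw [← mul_assoc, hcc, one_mul]
  have hddx : ∀ x, d * (d * x) = x := fun x => by rw [← mul_assoc, hdd, one_mul]
  have hzx : ∀ x, z * (z * x) = x := fun x => by rw [← mul_assoc, hz, one_mul]
  have h1 : (c * z * c) * (d * z * d) * ((c * z * c) * (d * z * d)) = 1 := by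
    have e : (c * z * c) * (d * z * d) * ((c * z * c) * (d * z * d)) =
        c * (z * ((c * d) * (z * ((d * c) * (z * ((c * d) * (z * (d * c)))))))) * c := by
      simp only [mul_assoc, hcc, mul_one]
    rw [e, h, mul_one, hcc]
  have h2 : (c * z * c) * (c * z * c) = 1 := by
    simp only [mul_assoc, hccx, hzx, hcc]
  have h3 : (d * z * d) * (d * z * d) = 1 := by
    simp only [mul_assoc, hddx, hzx, hdd]
  show (c * z * c) * (d * z * d) = (d * z * d) * (c * z * c)
  have h4 : (c * z * c) * (d * z * d) = ((c * z * c) * (d * z * d))⁻¹ := eq_inv_of_mul_eq_one_left h1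
  rw [h4, mul_inv_rev, inv_eq_of_mul_eq_one_left h2, inv_eq_of_mul_eq_one_left h3]

end Pool.Agent.Helper96.SV
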